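import Mathlib

namespace Pool.Agent.Results.MP_74392e_co.SixThree

/-- `(k,t)`-regular: every vertex has exactly `k` neighbours (a finite set) and every local graph
is `t`-regular, i.e. adjacent vertices have exactly `t` common neighbours. -/
def IsKTRegular {V : Type} (G : SimpleGraph V) (k t : ℕ) : Prop :=
  (∀ v, (G.neighborSet v).encard = k) ∧
  ∀ u v, G.Adj u v → (G.commonNeighbors u v).encard = t

def K333 : SimpleGraph (Fin 9) where
  Adj a b := a.val / 3 ≠ b.val / 3
  symm := ⟨fun _ _ h => h.symm⟩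
  loopless := ⟨fun _ h => h rfl⟩

instance : DecidableRel K333.Adj := fun a b => inferInstanceAs (Decidable (a.val / 3 ≠ b.val / 3))

def pr : Fin 10 → Finset (Fin 5) :=
  ![{0, 1}, {0, 2}, {0, 3}, {0, 4}, {1, 2}, {1, 3}, {1, 4}, {2, 3}, {2, 4}, {3, 4}]

def T5 : SimpleGraph (Fin 10) where
  Adj a b := (pr a ∩ pr b).card = 1
  symm := ⟨fun a b h => by rwa [Finset.inter_comm]⟩
  loopless := ⟨by decide⟩

instance : DecidableRel T5.Adj := fun a b => inferInstanceAs (Decidable ((pr a ∩ pr b).card = 1))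

theorem kt_of {n : ℕ} (G : SimpleGraph (Fin n)) [DecidableRel G.Adj] (k t : ℕ)
    (h1 : ∀ v, (Finset.univ.filter (fun u => G.Adj v u)).card = k)
    (h2 : ∀ u v, G.Adj u v →
      (Finset.univ.filter (fun w => G.Adj u w ∧ G.Adj v w)).card = t) : IsKTRegular G k t := by
  constructor
  · intro v
    rw [← h1 v, ← Set.encard_coe_eq_coe_finsetCard]
    congr 1
    ext u
    simp
  · intro u v h
    rw [← h2 u v h, ← Set.encard_coe_eq_coe_finsetCard]
    congr 1
    ext w
    simp [SimpleGraph.mem_commonNeighbors]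

theorem conn_of {n : ℕ} [NeZero n] (G : SimpleGraph (Fin n))
    (h : ∀ u v, u = v ∨ G.Adj u v ∨ ∃ w, G.Adj u w ∧ G.Adj w v) : G.Connected := by
  refine ⟨fun u v => ?_⟩
  rcases h u v with rfl | h | ⟨w, h1, h2⟩
  · rfl
  · exact h.reachable
  · exact h1.reachable.trans h2.reachable

theorem finite_of {V : Type} (G : SimpleGraph V) (hc : G.Connected) (h : IsKTRegular G 6 3) :
    Finite V := by
  classical
  have hfin : ∀ v, (G.neighborSet v).Finite := fun v =>
    Set.finite_of_encard_eq_coe (h.1 v)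
  let N : V → Finset V := fun v => (hfin v).toFinset
  have hN : ∀ v u, u ∈ N v ↔ G.Adj v u := fun v u => by simp [N]
  have hNc : ∀ v, (N v).card = 6 := by
    intro v
    have := h.1 v
    rw [← (hfin v).coe_toFinset, Set.encard_coe_eq_coe_finsetCard] at this
    exact_mod_cast this
  have hI : ∀ u v, G.Adj u v → (N u ∩ N v).card = 3 := by
    intro u v huv
    have := h.2 u v huv
    have e : G.commonNeighbors u v = ((N u ∩ N v : Finset V) : Set V) := by
      ext w; simp [SimpleGraph.mem_commonNeighbors, hN]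
    rw [e, Set.encard_coe_eq_coe_finsetCard] at this
    exact_mod_cast this
  -- two nonadjacent distinct neighbours of `v` have at least two common neighbours inside `N v`
  have two : ∀ v a b, G.Adj v a → G.Adj v b → a ≠ b → ¬ G.Adj a b →
      2 ≤ ((N v ∩ N a) ∩ (N v ∩ N b)).card := by
    intro v a b ha hb hab hn
    have h1 := Finset.card_union_add_card_inter (N v ∩ N a) (N v ∩ N b)
    rw [hI v a ha, hI v b hb] at h1
    have h2 : (N v ∩ N a) ∪ (N v ∩ N b) ⊆ ((N v).erase a).erase b := by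
      intro x hx
      simp only [Finset.mem_union, Finset.mem_inter, hN, Finset.mem_erase] at hx ⊢
      rcases hx with ⟨h3, h4⟩ | ⟨h3, h4⟩
      · exact ⟨fun e => hn (e ▸ h4), h4.ne', h3⟩
      · exact ⟨h4.ne', fun e => hn (e ▸ h4).symm, h3⟩
    have h3 := Finset.card_le_card h2
    rw [Finset.card_erase_of_mem (Finset.mem_erase.mpr ⟨hab.symm, (hN _ _).mpr hb⟩),
      Finset.card_erase_of_mem ((hN _ _).mpr ha), hNc] at h3
    omega
  have diam : ∀ u v w z, G.Adj u v → G.Adj v w → G.Adj w z →
      z = u ∨ G.Adj u z ∨ ∃ x, G.Adj u x ∧ G.Adj x z := by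
    intro u v w z huv hvw hwz
    by_contra hno
    push Not at hno
    obtain ⟨hzu, huz, hx⟩ := hno
    have hwu : u ≠ w := fun e => huz (e ▸ hwz)
    have hnw : ¬ G.Adj u w := fun e => hx w e hwz
    have h1 := two v u w huv.symm hvw hwu hnw
    let M := insert v ((N v ∩ N u) ∩ (N v ∩ N w))
    have hM : 3 ≤ M.card := by
      rw [Finset.card_insert_of_notMem]
      · omega
      · simp [hN]
    have hd : Disjoint M (N w ∩ N z) := by
      rw [Finset.disjoint_left]
      intro x hxM hx2
      simp only [M, Finset.mem_insert, Finset.mem_inter, hN] at hxM hx2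
      rcases hxM with rfl | ⟨⟨-, h3⟩, -⟩
      · exact hx _ huv hx2.2.symm
      · exact hx _ h3 hx2.2.symm
    have hs : M ∪ (N w ∩ N z) ⊆ (N w).erase z := by
      intro x hxM
      simp only [M, Finset.mem_union, Finset.mem_insert, Finset.mem_inter, hN,
        Finset.mem_erase] at hxM ⊢
      rcases hxM with (rfl | ⟨⟨-, h3⟩, -, h4⟩) | ⟨h3, h4⟩
      · exact ⟨fun e => huz (e ▸ huv), hvw.symm⟩
      · exact ⟨fun e => huz (e ▸ h3), h4⟩
      · exact ⟨h4.ne', h3⟩
    have h3 := Finset.card_le_card hs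
    rw [Finset.card_union_of_disjoint hd, hI w z hwz,
      Finset.card_erase_of_mem ((hN _ _).mpr hwz), hNc] at h3
    omega
  obtain ⟨u⟩ := hc.nonempty
  have all : ∀ z, z = u ∨ G.Adj u z ∨ ∃ x, G.Adj u x ∧ G.Adj x z := by
    intro z
    have hr := (SimpleGraph.reachable_iff_reflTransGen u z).mp (hc.preconnected u z)
    induction hr with
    | refl => exact Or.inl rfl
    | tail _ hbc ih =>
      rcases ih with rfl | h1 | ⟨x, h1, h2⟩
      · exact Or.inr (Or.inl hbc)
      · exact Or.inr (Or.inr ⟨_, h1, hbc⟩)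
      · exact diam _ _ _ _ h1 h2 hbc
  refine Finite.of_finite_univ ((insert u (N u ∪ (N u).biUnion N)).finite_toSet.subset ?_)
  intro z _
  simp only [Finset.coe_insert, Finset.coe_union, Finset.coe_biUnion, Set.mem_insert_iff,
    Set.mem_union, Finset.mem_coe, Set.mem_iUnion, hN]
  rcases all z with h1 | h1 | ⟨x, h1, h2⟩
  · exact Or.inl h1
  · exact Or.inr (Or.inl h1)
  · exact Or.inr (Or.inr ⟨x, h1, h2⟩)

theorem result : ∃ k t : ℕ, 1 ≤ k ∧
    (∃ (V W : Type) (G : SimpleGraph V) (H : SimpleGraph W), G.Connected ∧ H.Connected ∧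
      IsKTRegular G k t ∧ IsKTRegular H k t ∧ IsEmpty (G ≃g H)) ∧
    ∀ (V : Type) (G : SimpleGraph V), G.Connected → IsKTRegular G k t → Finite V := by
  refine ⟨6, 3, by norm_num, ⟨Fin 9, Fin 10, K333, T5, conn_of _ (by decide +kernel),
    conn_of _ (by decide +kernel), kt_of _ _ _ (by decide +kernel) (by decide +kernel),
    kt_of _ _ _ (by decide +kernel) (by decide +kernel), ⟨fun φ => ?_⟩⟩,
    fun V G => finite_of G⟩
  have := Fintype.card_congr φ.toEquiv
  simp at this

end Pool.Agent.Results.MP_74392e_co.SixThree
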